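import Mathlib
import Pool.Agent.H90.AC.Main
import Pool.Agent.H90.AC.Transfer
import Pool.Agent.H90.AC.Exists

/-!
# `|Aut_c(G)| = |γ₂(G)| ^ d(G)`: all finite groups, and all finitely generated groups with finite `γ₂(G)`

`commutator G` is `γ₂(G)`, `Group.rank G` is `d(G)`, the minimal number of generators, and
`AutC G` is the set of all class-preserving automorphisms of `G`.
-/

set_option autoImplicit false

open scoped commutatorElement

namespace Pool.Agent.Results.MP_932391_al.AllFiniteGroups

/-- The class-preserving automorphisms of `G`. -/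
abbrev AutC (G : Type) [Group G] : Type := {α : G ≃* G // ∀ w : G, IsConj w (α w)}

/-- The three families of finite `p`-groups:
(i) class at most two, and `x ~ x u` for all `x` outside the Frattini subgroup and all `u ∈ γ₂(P)`;
(ii) two generators, `γ₂(P)` cyclic and, if `p = 2`, every `[u, g]`, `u ∈ γ₂(P)`, `g ∈ P`, is the
fourth power of an element of `γ₂(P)`;
(iii) `p = 2`, two generators, `γ₂(P)` of exponent at most two, and class at most three. -/
def ThreeFamilies (p : ℕ) (P : Type) [Group P] [Finite P] : Prop :=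
  (⁅commutator P, (⊤ : Subgroup P)⁆ = ⊥ ∧
      ∀ x : P, x ∉ frattini P → ∀ u ∈ commutator P, IsConj x (x * u)) ∨
    (Group.rank P = 2 ∧ IsCyclic (commutator P) ∧
      (p = 2 → ∀ u ∈ commutator P, ∀ g : P, ∃ v ∈ commutator P, ⁅u, g⁆ = v ^ 4)) ∨
    (p = 2 ∧ Group.rank P = 2 ∧ (∀ u ∈ commutator P, u ^ 2 = 1) ∧
      ⁅⁅commutator P, (⊤ : Subgroup P)⁆, (⊤ : Subgroup P)⁆ = ⊥)

theorem result :
    -- finite `p`-groups
    (∀ (p : ℕ) [Fact p.Prime] (G : Type) [Group G] [Finite G], IsPGroup p G →
      (Nat.card (AutC G) = Nat.card (commutator G) ^ Group.rank G ↔ ThreeFamilies p G)) ∧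
    -- all finite groups
    (∀ (G : Type) [Group G] [Finite G],
      (Nat.card (AutC G) = Nat.card (commutator G) ^ Group.rank G ↔
        Group.IsNilpotent G ∧ ∀ (p : ℕ) [Fact p.Prime] (P : Sylow p G),
          (∀ a b : P, a * b = b * a) ∨ (Group.rank P = Group.rank G ∧ ThreeFamilies p P))) ∧
    -- all finitely generated groups with finite `γ₂(G)`
    (∀ (G : Type) [Group G] [Group.FG G] [Finite (commutator G)],
      Finite (AutC G) ∧
      Nat.card (AutC G) ≤ Nat.card (commutator G) ^ Group.rank G ∧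
      (∀ M : Subgroup G, IsCoatom M → ¬ commutator G ≤ M →
        Nat.card (AutC G) + Nat.card (M ⊓ commutator G : Subgroup G) ^ Group.rank G ≤
          Nat.card (commutator G) ^ Group.rank G) ∧
      (∃ N : Subgroup G, N ≤ Subgroup.center G ∧ N.FiniteIndex ∧ N ⊓ commutator G = ⊥) ∧
      ∀ (N : Subgroup G) [N.Normal] [N.FiniteIndex], N ⊓ commutator G = ⊥ →
        (Nat.card (AutC G) = Nat.card (commutator G) ^ Group.rank G ↔
          Group.IsNilpotent G ∧ ∀ (p : ℕ) [Fact p.Prime] (P : Sylow p (G ⧸ N)),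
            (∀ a b : P, a * b = b * a) ∨ (Group.rank P = Group.rank G ∧ ThreeFamilies p P))) := by
  refine ⟨fun p _ G _ _ hG => H90.AC.pgroup p G hG, fun G _ _ => H90.AC.iff_all G _ le_rfl,
    fun G _ _ _ => ⟨H90.AC.finite_ac G, H90.AC.card_le G, fun M hM h => H90.AC.gap G M hM h, ?_, ?_⟩⟩
  · obtain ⟨N, h1, h2, h3⟩ := H90.AC.exists_central G
    exact ⟨N, h1, h3, h2⟩
  · intro N _ _ hN
    have hsurj : Function.Surjective (QuotientGroup.mk' N) := QuotientGroup.mk'_surjective N
    have hinj : ∀ u ∈ commutator G, QuotientGroup.mk' N u = 1 → u = 1 := by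
      intro u hu h
      have h1 : u ∈ N := (QuotientGroup.eq_one_iff u).1 h
      have h2 : u ∈ N ⊓ commutator G := ⟨h1, hu⟩
      rwa [hN, Subgroup.mem_bot] at h2
    have hnil : Group.IsNilpotent G ↔ Group.IsNilpotent (G ⧸ N) := by
      constructor
      · intro h
        exact Group.nilpotent_of_surjective _ hsurj
      · intro h
        refine Subgroup.isNilpotent_of_ker_le_center (QuotientGroup.mk' N) fun n hn => ?_
        rw [Subgroup.mem_center_iff]
        exact fun g => H90.AC.ker_central _ hinj hn g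
    have h1 : Nat.card (AutC G) = Nat.card (AutC (G ⧸ N)) :=
      H90.AC.card_ac_eq (QuotientGroup.mk' N) hinj hsurj
    have h2 : Nat.card (commutator G) = Nat.card (commutator (G ⧸ N)) :=
      H90.AC.card_commutator_eq (QuotientGroup.mk' N) hinj hsurj
    have h3 : Group.rank (G ⧸ N) ≤ Group.rank G := Group.rank_le_of_surjective _ hsurj
    rw [h1, h2, hnil]
    exact H90.AC.iff_all (G ⧸ N) _ h3

end Pool.Agent.Results.MP_932391_al.AllFiniteGroups
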